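import Pool.Agent.R643.Focal

set_option autoImplicit false

/-!
# Hyperbolic structures on a group

The poset of hyperbolic structures of a group `G`: equivalence classes of generating sets `X` for which
the Cayley graph of `G` with respect to `X` is Gromov hyperbolic; the quasi-parabolic ones.
-/

namespace Pool.Agent.P8H64.Hyp

universe u

/-- A generating set of the group `G` (finite or infinite). -/
structure GenSet (G : Type u) [Group G] where
  /-- the underlying set -/
  carrier : Set G
  /-- it generates `G` -/
  gen : Subgroup.closure carrier = ⊤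

section

variable {G : Type u} [Group G]

/-- The word length `|g|_X`: the least length of a word in the elements of `X` and their inverses
whose product is `g`. -/
noncomputable def wordLength (X : Set G) (g : G) : ℕ :=
  sInf {n | ∃ l : List G, l.length = n ∧ (∀ x ∈ l, x ∈ X ∨ x⁻¹ ∈ X) ∧ l.prod = g}

theorem wordLength_le {X : Set G} {l : List G} (h : ∀ x ∈ l, x ∈ X ∨ x⁻¹ ∈ X) :
    wordLength X l.prod ≤ l.length := Nat.sInf_le ⟨l, rfl, h, rfl⟩

theorem exists_word (X : GenSet G) (g : G) : ∃ l : List G,
    (∀ x ∈ l, x ∈ X.carrier ∨ x⁻¹ ∈ X.carrier) ∧ l.prod = g := by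
  have hg : g ∈ Subgroup.closure X.carrier := by rw [X.gen]; exact Subgroup.mem_top g
  rw [← Subgroup.mem_toSubmonoid, Subgroup.closure_toSubmonoid] at hg
  obtain ⟨l, h1, h2⟩ := Submonoid.exists_list_of_mem_closure hg
  exact ⟨l, fun x hx => by simpa using h1 x hx, h2⟩

theorem exists_min_word (X : GenSet G) (g : G) : ∃ l : List G, l.length = wordLength X.carrier g ∧
    (∀ x ∈ l, x ∈ X.carrier ∨ x⁻¹ ∈ X.carrier) ∧ l.prod = g := by
  obtain ⟨l, h1, h2⟩ := exists_word X g
  exact Nat.sInf_mem (s := {n | ∃ l : List G, l.length = n ∧
    (∀ x ∈ l, x ∈ X.carrier ∨ x⁻¹ ∈ X.carrier) ∧ l.prod = g}) ⟨l.length, l, rfl, h1, h2⟩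

theorem wordLength_mul (X : GenSet G) (g h : G) :
    wordLength X.carrier (g * h) ≤ wordLength X.carrier g + wordLength X.carrier h := by
  obtain ⟨l, h1, h2, rfl⟩ := exists_min_word X g
  obtain ⟨m, h3, h4, rfl⟩ := exists_min_word X h
  rw [← h1, ← h3, ← List.prod_append, ← List.length_append]
  apply wordLength_le
  intro x hx
  rcases List.mem_append.1 hx with hx | hx
  · exact h2 x hx
  · exact h4 x hx

theorem wordLength_inv_le (X : GenSet G) (g : G) :
    wordLength X.carrier g⁻¹ ≤ wordLength X.carrier g := by
  obtain ⟨l, h1, h2, rfl⟩ := exists_min_word X g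
  rw [← h1, List.prod_inv_reverse]
  have h3 : (l.map (fun x => x⁻¹)).reverse.length = l.length := by simp
  rw [← h3]
  apply wordLength_le
  intro x hx
  rw [List.mem_reverse, List.mem_map] at hx
  obtain ⟨y, hy, rfl⟩ := hx
  rw [inv_inv]
  exact (h2 y hy).symm

theorem wordLength_inv (X : GenSet G) (g : G) :
    wordLength X.carrier g⁻¹ = wordLength X.carrier g := by
  apply le_antisymm (wordLength_inv_le X g)
  have := wordLength_inv_le X g⁻¹
  rwa [inv_inv] at this

theorem wordLength_one (X : Set G) : wordLength X (1 : G) = 0 := by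
  have := wordLength_le (X := X) (l := []) (by simp)
  simpa using this

theorem wordLength_mem {X : Set G} {x : G} (hx : x ∈ X) : wordLength X x ≤ 1 := by
  have := wordLength_le (X := X) (l := [x]) (by intro y hy; simp at hy; subst hy; exact Or.inl hx)
  simpa using this

theorem wordLength_list_le (X : GenSet G) (C : ℕ) (l : List G)
    (h : ∀ x ∈ l, wordLength X.carrier x ≤ C) : wordLength X.carrier l.prod ≤ l.length * C := by
  induction l with
  | nil => rw [List.prod_nil, wordLength_one]; exact Nat.zero_le _
  | cons x l ih =>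
    rw [List.prod_cons, List.length_cons, add_mul, one_mul]
    have h1 := wordLength_mul X x l.prod
    have h2 := h x (by simp)
    have h3 := ih fun y hy => h y (by simp [hy])
    omega

/-- The order of generating sets: `Y ≤ X` if the lengths `|x|_Y` of the elements `x` of `X` are
bounded, that is `sup_{x ∈ X} |x|_Y < ∞`. -/
instance : Preorder (GenSet G) where
  le Y X := ∃ C : ℕ, ∀ x ∈ X.carrier, wordLength Y.carrier x ≤ C
  le_refl X := ⟨1, fun x hx => wordLength_mem hx⟩
  le_trans Z Y X := by
    rintro ⟨C, hC⟩ ⟨D, hD⟩
    refine ⟨D * C, fun x hx => ?_⟩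
    obtain ⟨l, h1, h2, h3⟩ := exists_min_word Y x
    have h4 : wordLength Z.carrier l.prod ≤ l.length * C := by
      apply wordLength_list_le
      intro y hy
      rcases h2 y hy with h | h
      · exact hC y h
      · rw [← wordLength_inv]; exact hC _ h
    rw [h3] at h4
    refine h4.trans (Nat.mul_le_mul_right C ?_)
    rw [h1]
    exact hD x hx

theorem le_def (Y X : GenSet G) : Y ≤ X ↔ ∃ C : ℕ, ∀ x ∈ X.carrier, wordLength Y.carrier x ≤ C :=
  Iff.rfl

/-- The distance of two vertices of the Cayley graph of `G` with respect to `X` (the graph distance: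
the word length of `g⁻¹ h`). -/
noncomputable def cayDist (X : GenSet G) (g h : G) : ℕ := wordLength X.carrier (g⁻¹ * h)

/-- The Cayley graph `Γ(G, X)` is Gromov hyperbolic (four point condition). -/
def IsHyperbolic (X : GenSet G) : Prop :=
  ∃ δ : ℕ, ∀ x y z w : G, cayDist X x y + cayDist X z w ≤
    max (cayDist X x z + cayDist X y w) (cayDist X x w + cayDist X y z) + δ

/-- The Gromov product of two vertices of `Γ(G, X)` with respect to the vertex `1`. -/
noncomputable def gromovProduct (X : GenSet G) (g h : G) : ℝ :=
  ((cayDist X 1 g : ℝ) + cayDist X 1 h - cayDist X g h) / 2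

/-- The Gromov products of the members of the two sequences tend to infinity. For sequences that
converge to infinity this means that they converge to the same boundary point. -/
def SameLimit (X : GenSet G) (s s' : ℕ → G) : Prop :=
  ∀ R : ℝ, ∃ N : ℕ, ∀ m n : ℕ, N ≤ m → N ≤ n → R ≤ gromovProduct X (s m) (s' n)

/-- The sequence of vertices converges to infinity in Gromov's sense. -/
def ConvergesToInfinity (X : GenSet G) (s : ℕ → G) : Prop := SameLimit X s s

/-- The Gromov boundary of the Cayley graph `Γ(G, X)`: its points are the classes of sequences of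
vertices that converge to infinity, two such sequences being equivalent if their Gromov products tend
to infinity. -/
def Boundary (X : GenSet G) : Set (Set (ℕ → G)) :=
  {ξ | ∃ s, ConvergesToInfinity X s ∧ ξ = {s' | ConvergesToInfinity X s' ∧ SameLimit X s s'}}

/-- The limit set of `G` in the boundary of `Γ(G, X)`: the boundary points that are limits of a
sequence in the orbit of the vertex `1`. -/
def limitSet (X : GenSet G) : Set (Set (ℕ → G)) :=
  {ξ | ξ ∈ Boundary X ∧ ∃ g : ℕ → G, (fun n => g n * 1) ∈ ξ}

/-- The action of `G` on its Cayley graph `Γ(G, X)` by left multiplication is quasi-parabolic: it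
fixes a point of the boundary, and its limit set is infinite. -/
def IsQuasiParabolic (X : GenSet G) : Prop :=
  (∃ ξ ∈ Boundary X, ∀ g : G, (fun s : ℕ → G => fun n => g * s n) '' ξ = ξ) ∧
    (limitSet X).Infinite

/-- The poset of equivalence classes of generating sets of `G`. -/
abbrev Classes (G : Type u) [Group G] : Type u := Antisymmetrization (GenSet G) (· ≤ ·)

/-- The set `H(G)` of hyperbolic structures on `G`. -/
def HypStructures (G : Type u) [Group G] : Set (Classes G) :=
  {c | ∃ X : GenSet G, toAntisymmetrization (· ≤ ·) X = c ∧ IsHyperbolic X}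

/-- The set `H_qp(G)` of quasi-parabolic hyperbolic structures on `G`. -/
def QPStructures (G : Type u) [Group G] : Set (Classes G) :=
  {c | ∃ X : GenSet G, toAntisymmetrization (· ≤ ·) X = c ∧ IsHyperbolic X ∧ IsQuasiParabolic X}

end

end Pool.Agent.P8H64.Hyp
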