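import Pool.Agent.P8H64.Hyp.Defs

set_option autoImplicit false

/-!
# The hyperbolic structure attached to a contracted norm is quasi-parabolic
-/

namespace Pool.Agent.P8H64.Hyp

open Pool.Agent.R643

universe u

variable {G : Type u} [Group G]

theorem mem_Wd_iff {S : Set G} {n : ℕ} {g : G} :
    g ∈ Wd S n ↔ ∃ l : List G, l.length = n ∧ (∀ x ∈ l, x ∈ S) ∧ l.prod = g := by
  induction n generalizing g with
  | zero =>
    constructor
    · intro h
      have h' : g = 1 := h
      exact ⟨[], rfl, by simp, by rw [h']; rfl⟩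
    · rintro ⟨l, h1, -, rfl⟩
      rw [List.length_eq_zero_iff.1 h1]
      rfl
  | succ n ih =>
    constructor
    · rintro ⟨s, hs, k, hk, rfl⟩
      obtain ⟨l, h1, h2, rfl⟩ := ih.1 hk
      refine ⟨s :: l, by simp [h1], ?_, by simp⟩
      intro x hx
      rcases List.mem_cons.1 hx with rfl | hx
      · exact hs
      · exact h2 x hx
    · rintro ⟨l, h1, h2, rfl⟩
      cases l with
      | nil => simp at h1
      | cons s l =>
        refine ⟨s, h2 s (by simp), l.prod, ih.2 ⟨l, by simpa using h1, fun x hx => h2 x (by simp [hx]),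
          rfl⟩, by simp⟩

theorem wordLength_eq_len {S : Set G} (hS : ∀ s ∈ S, s⁻¹ ∈ S) (g : G) :
    wordLength S g = len S g := by
  unfold wordLength len
  congr 1
  ext n
  change (∃ l : List G, l.length = n ∧ (∀ x ∈ l, x ∈ S ∨ x⁻¹ ∈ S) ∧ l.prod = g) ↔ g ∈ Wd S n
  rw [mem_Wd_iff]
  constructor
  · rintro ⟨l, h1, h2, h3⟩
    refine ⟨l, h1, fun x hx => ?_, h3⟩
    rcases h2 x hx with h | h
    · exact h
    · have := hS _ h
      rwa [inv_inv] at this
  · rintro ⟨l, h1, h2, h3⟩
    exact ⟨l, h1, fun x hx => Or.inl (h2 x hx), h3⟩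

/-- the generating set `{t, t⁻¹} ∪ {k | τ k = 0, u k ≤ 1}` of a contracted norm -/
def genSet (N : NormData G) : GenSet G where
  carrier := N.S
  gen := by
    rw [eq_top_iff]
    intro g _
    obtain ⟨n, hn⟩ := N.generates g
    obtain ⟨l, -, h2, rfl⟩ := mem_Wd_iff.1 hn
    exact Subgroup.list_prod_mem _ fun x hx => Subgroup.subset_closure (h2 x hx)

theorem cayDist_eq (N : NormData G) (g h : G) : cayDist (genSet N) g h = N.metric.D g h := by
  unfold cayDist
  rw [N.metric_D]
  exact wordLength_eq_len N.S_inv _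

theorem isHyperbolic (N : NormData G) : IsHyperbolic (genSet N) := by
  refine ⟨10, fun x y z w => ?_⟩
  simp only [cayDist_eq]
  have h := N.four x y z w
  omega

/-- the Gromov product is coarsely ultrametric -/
theorem gromovProduct_tri {X : GenSet G} {δ : ℕ} (hδ : ∀ x y z w : G,
    cayDist X x y + cayDist X z w ≤
    max (cayDist X x z + cayDist X y w) (cayDist X x w + cayDist X y z) + δ) (x y z : G) :
    min (gromovProduct X x y) (gromovProduct X y z) - δ ≤ gromovProduct X x z := by
  have h := hδ x z y 1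
  have hs : ∀ a b : G, cayDist X a b = cayDist X b a := by
    intro a b
    unfold cayDist
    rw [← wordLength_inv, mul_inv_rev, inv_inv]
  rw [hs x 1, hs z 1, hs y 1] at h
  have h' : (cayDist X x z : ℝ) + cayDist X 1 y ≤
    max ((cayDist X x y : ℝ) + cayDist X 1 z) (cayDist X 1 x + cayDist X z y) + δ := by
    exact_mod_cast h
  rw [hs z y] at h'
  unfold gromovProduct
  have hδ0 : (0 : ℝ) ≤ δ := by positivity
  rcases max_choice ((cayDist X x y : ℝ) + cayDist X 1 z) (cayDist X 1 x + cayDist X y z)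
    with e | e
  · rw [e] at h'
    have := min_le_left (((cayDist X 1 x : ℝ) + cayDist X 1 y - cayDist X x y) / 2)
      (((cayDist X 1 y : ℝ) + cayDist X 1 z - cayDist X y z) / 2)
    linarith
  · rw [e] at h'
    have := min_le_right (((cayDist X 1 x : ℝ) + cayDist X 1 y - cayDist X x y) / 2)
      (((cayDist X 1 y : ℝ) + cayDist X 1 z - cayDist X y z) / 2)
    linarith

theorem cayDist_symm (X : GenSet G) (a b : G) : cayDist X a b = cayDist X b a := by
  unfold cayDist
  rw [← wordLength_inv, mul_inv_rev, inv_inv]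

theorem gromovProduct_symm (X : GenSet G) (x y : G) :
    gromovProduct X x y = gromovProduct X y x := by
  unfold gromovProduct
  rw [cayDist_symm X x y]
  ring

theorem SameLimit.symm {X : GenSet G} {s s' : ℕ → G} (h : SameLimit X s s') :
    SameLimit X s' s := by
  intro R
  obtain ⟨N, hN⟩ := h R
  refine ⟨N, fun m n hm hn => ?_⟩
  rw [gromovProduct_symm]
  exact hN n m hn hm

theorem SameLimit.trans {X : GenSet G} (hX : IsHyperbolic X) {s s' s'' : ℕ → G}
    (h : SameLimit X s s') (h' : SameLimit X s' s'') : SameLimit X s s'' := by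
  obtain ⟨δ, hδ⟩ := hX
  intro R
  obtain ⟨N, hN⟩ := h (R + δ)
  obtain ⟨N', hN'⟩ := h' (R + δ)
  refine ⟨max N N', fun m n hm hn => ?_⟩
  have h1 := hN m (max N N') (le_trans (le_max_left _ _) hm) (le_max_left _ _)
  have h2 := hN' (max N N') n (le_max_right _ _) (le_trans (le_max_right _ _) hn)
  have h3 := gromovProduct_tri hδ (s m) (s' (max N N')) (s'' n)
  have h4 := le_min h1 h2
  linarith

theorem cayDist_mul (X : GenSet G) (g a b : G) : cayDist X (g * a) (g * b) = cayDist X a b := by
  unfold cayDist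
  congr 1
  group

theorem cayDist_tri (X : GenSet G) (a b c : G) : cayDist X a c ≤ cayDist X a b + cayDist X b c := by
  unfold cayDist
  have := wordLength_mul X (a⁻¹ * b) (b⁻¹ * c)
  have e : a⁻¹ * b * (b⁻¹ * c) = a⁻¹ * c := by group
  rwa [e] at this

theorem gromovProduct_mul (X : GenSet G) (g a b : G) :
    gromovProduct X a b - cayDist X 1 g ≤ gromovProduct X (g * a) (g * b) := by
  unfold gromovProduct
  rw [cayDist_mul]
  have h1 := cayDist_tri X g 1 (g * a)
  have h2 := cayDist_tri X g 1 (g * b)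
  have h3 := cayDist_mul X g 1 a
  have h4 := cayDist_mul X g 1 b
  rw [mul_one] at h3 h4
  rw [h3, cayDist_symm X g 1] at h1
  rw [h4, cayDist_symm X g 1] at h2
  have h1' : (cayDist X 1 a : ℝ) ≤ cayDist X 1 g + cayDist X 1 (g * a) := by exact_mod_cast h1
  have h2' : (cayDist X 1 b : ℝ) ≤ cayDist X 1 g + cayDist X 1 (g * b) := by exact_mod_cast h2
  linarith

theorem SameLimit.mul_left {X : GenSet G} {s s' : ℕ → G} (h : SameLimit X s s') (g : G) :
    SameLimit X (fun n => g * s n) (fun n => g * s' n) := by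
  intro R
  obtain ⟨N, hN⟩ := h (R + cayDist X 1 g)
  refine ⟨N, fun m n hm hn => ?_⟩
  have h1 := hN m n hm hn
  have h2 := gromovProduct_mul X g (s m) (s' n)
  linarith

theorem class_fixed {X : GenSet G} (hX : IsHyperbolic X) {s : ℕ → G}
    (hfix : ∀ g : G, SameLimit X (fun n => g * s n) s) (g : G) :
    (fun s : ℕ → G => fun n => g * s n) '' {s' | ConvergesToInfinity X s' ∧ SameLimit X s s'} =
      {s' | ConvergesToInfinity X s' ∧ SameLimit X s s'} := by
  have key : ∀ (g : G) (s' : ℕ → G), ConvergesToInfinity X s' → SameLimit X s s' →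
      ConvergesToInfinity X (fun n => g * s' n) ∧ SameLimit X s (fun n => g * s' n) := by
    intro g s' h1 h2
    exact ⟨SameLimit.mul_left h1 g, (hfix g).symm.trans hX (h2.mul_left g)⟩
  ext s'
  constructor
  · rintro ⟨s'', ⟨h1, h2⟩, rfl⟩
    exact key g s'' h1 h2
  · rintro ⟨h1, h2⟩
    refine ⟨fun n => g⁻¹ * s' n, key g⁻¹ s' h1 h2, ?_⟩
    funext n
    simp

section

variable (N : NormData G)

/-- the word metric as a metric space structure -/
@[reducible] noncomputable def ms : MetricSpace G where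
  dist g h := N.metric.D g h
  dist_self g := by simp [N.metric.self]
  dist_comm g h := by
    show (N.metric.D g h : ℝ) = N.metric.D h g
    rw [N.metric.symm g h]
  dist_triangle g h k := by
    have := N.metric.tri g h k
    exact_mod_cast this
  eq_of_dist_eq_zero {g h} hd := by
    have h' : (N.metric.D g h : ℝ) = 0 := hd
    exact N.metric.eq_of g h (by exact_mod_cast h')

theorem gpr_eq (x y : G) : @gpr G (ms N) 1 x y = gromovProduct (genSet N) x y := by
  unfold gpr gromovProduct
  rw [cayDist_eq, cayDist_eq, cayDist_eq]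
  rfl

theorem sameLimit_of_sameEnd {s s' : ℕ → G} (h : @SameEnd G (ms N) s s') :
    SameLimit (genSet N) s s' := by
  intro R
  obtain ⟨M, hM⟩ := h 1 R
  refine ⟨M, fun m n hm hn => ?_⟩
  rw [← gpr_eq]
  exact hM m n hm hn

theorem sameEnd_of_sameLimit {s s' : ℕ → G} (h : SameLimit (genSet N) s s') :
    @SameEnd G (ms N) s s' := by
  refine @sameEnd_of_base G (ms N) 1 s s' ?_
  intro R
  obtain ⟨M, hM⟩ := h R
  refine ⟨M, fun m n hm hn => ?_⟩
  rw [gpr_eq]
  exact hM m n hm hn

theorem ho_one : ∀ g h : G, @dist G (ms N).toDist (g • (1 : G)) (h • (1 : G)) = N.metric.D g h := by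
  intro g h
  rw [smul_eq_mul, smul_eq_mul, mul_one, mul_one]
  rfl

theorem isQuasiParabolic (k : ℕ → G) (hk : ∀ i, N.τ (k i) = 0)
    (hk' : ∀ i j, i ≠ j → 0 < N.u ((k i)⁻¹ * k j)) : IsQuasiParabolic (genSet N) := by
  have hX := isHyperbolic N
  constructor
  · -- the fixed point
    set s : ℕ → G := fun n => N.t ^ (-(n : ℤ)) with hs
    have hconv : ConvergesToInfinity (genSet N) s := by
      have h1 := @NormData.toBoundary_top G _ N G (ms N) _ 1 (ho_one N)
      have h2 := sameLimit_of_sameEnd N h1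
      have h3 : (fun n : ℕ => N.t ^ (-(n : ℤ)) • (1 : G)) = s := by
        funext n; rw [smul_eq_mul, mul_one]
      rw [h3] at h2
      exact h2
    have hfix : ∀ g : G, SameLimit (genSet N) (fun n => g * s n) s := by
      intro g
      have h1 := @NormData.fixes_top G _ N G (ms N) _ 1 (ho_one N) g
      have h2 := sameLimit_of_sameEnd N h1
      have h3 : (fun n : ℕ => N.t ^ (-(n : ℤ)) • (1 : G)) = s := by
        funext n; rw [smul_eq_mul, mul_one]
      have h4 : (fun n : ℕ => g • (fun n : ℕ => N.t ^ (-(n : ℤ)) • (1 : G)) n) =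
          fun n => g * s n := by
        funext n
        show g * (N.t ^ (-(n : ℤ)) * 1) = g * s n
        rw [mul_one]
      rw [h4, h3] at h2
      exact h2
    exact ⟨_, ⟨s, hconv, rfl⟩, fun g => class_fixed hX hfix g⟩
  · -- infinitely many limit points
    set s : ℕ → ℕ → G := fun i n => k i * N.t ^ (n : ℤ) with hs
    have hdown : ConvergesToInfinity (genSet N) (fun n : ℕ => N.t ^ (n : ℤ)) := by
      have h1 := @NormData.toBoundary_down G _ N G (ms N) _ 1 (ho_one N)
      have h2 := sameLimit_of_sameEnd N h1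
      have h3 : (fun n : ℕ => N.t ^ (n : ℤ) • (1 : G)) = fun n : ℕ => N.t ^ (n : ℤ) := by
        funext n; rw [smul_eq_mul, mul_one]
      rw [h3] at h2
      exact h2
    have hconv : ∀ i, ConvergesToInfinity (genSet N) (s i) := fun i => hdown.mul_left (k i)
    have hne : ∀ i j, i ≠ j → ¬ SameLimit (genSet N) (s i) (s j) := by
      intro i j hij h
      have h1 := h.mul_left (k i)⁻¹
      have h2 : SameLimit (genSet N) (fun n => ((k i)⁻¹ * k j) * N.t ^ (n : ℤ))
          (fun n : ℕ => N.t ^ (n : ℤ)) := by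
        have e1 : (fun n => (k i)⁻¹ * s i n) = fun n : ℕ => N.t ^ (n : ℤ) := by
          funext n; simp [hs]
        have e2 : (fun n => (k i)⁻¹ * s j n) = fun n : ℕ => ((k i)⁻¹ * k j) * N.t ^ (n : ℤ) := by
          funext n; simp [hs, mul_assoc]
        rw [e1, e2] at h1
        exact h1.symm
      have h0 : N.τ ((k i)⁻¹ * k j) = 0 := by rw [N.τ_mul, N.τ_inv, hk, hk]; ring
      have h3 : N.τ ((k i)⁻¹ * k j * N.t) = 1 := by rw [N.τ_mul, h0, N.τ_t]; ring
      have h4 : N.κ ((k i)⁻¹ * k j * N.t) = (k i)⁻¹ * k j := by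
        unfold NormData.κ
        rw [h3, zpow_one]; group
      refine @NormData.not_fixes_down G _ N G (ms N) _ 1 (ho_one N) _ h3
        (by rw [h4]; exact hk' i j hij) ?_
      apply sameEnd_of_sameLimit
      intro R
      obtain ⟨M, hM⟩ := h2 R
      refine ⟨M, fun m n hm hn => ?_⟩
      have h5 := hM (m + 1) n (by omega) hn
      have e3 : ((k i)⁻¹ * k j * N.t) • N.t ^ (m : ℤ) • (1 : G) =
          (k i)⁻¹ * k j * N.t ^ ((m + 1 : ℕ) : ℤ) := by
        rw [smul_eq_mul, smul_eq_mul, mul_one]
        push_cast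
        rw [mul_assoc, add_comm, zpow_add, zpow_one]
      have e4 : N.t ^ (n : ℤ) • (1 : G) = N.t ^ (n : ℤ) := by rw [smul_eq_mul, mul_one]
      simp only [e3, e4]
      exact h5
    have hinj : Function.Injective fun i : ℕ =>
        {s' | ConvergesToInfinity (genSet N) s' ∧ SameLimit (genSet N) (s i) s'} := by
      intro i j hij
      by_contra hne'
      have h1 : s j ∈ {s' | ConvergesToInfinity (genSet N) s' ∧ SameLimit (genSet N) (s j) s'} :=
        ⟨hconv j, hconv j⟩
      simp only at hij
      rw [← hij] at h1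
      exact hne i j hne' h1.2
    refine Set.infinite_of_injective_forall_mem hinj ?_
    intro i
    refine ⟨⟨s i, hconv i, rfl⟩, s i, ?_⟩
    simp only [mul_one]
    exact ⟨hconv i, hconv i⟩

end

end Pool.Agent.P8H64.Hyp
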