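import Pool.Agent.P8H64.Hyp.FromNorm

set_option autoImplicit false

/-!
# The wreath product `ℤ ≀ ℤ` and its contracted norms
-/

namespace Pool.Agent.P8H64.Hyp

open scoped NNReal
open Pool.Agent.R643

/-- The translate of the finitely supported function `f` by `k`: its value at `i` is `f (i - k)`. -/
def shift (k : ℤ) (f : ℤ →₀ ℤ) : ℤ →₀ ℤ := Finsupp.equivMapDomain (Equiv.addRight k) f

theorem shift_apply (k : ℤ) (f : ℤ →₀ ℤ) (i : ℤ) : shift k f i = f (i - k) := by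
  unfold shift
  rw [Finsupp.equivMapDomain_apply]
  rfl

/-- The restricted wreath product `ℤ ≀ ℤ`: pairs `(f, k)` of a finitely supported function
`f : ℤ → ℤ` and an integer `k`, with the product `(f, k) (g, l) = (f + g (· - k), k + l)`. -/
@[ext] structure ZwrZ where
  /-- the lamps -/
  f : ℤ →₀ ℤ
  /-- the position -/
  k : ℤ

namespace ZwrZ

noncomputable instance : Mul ZwrZ := ⟨fun a b => ⟨a.f + shift a.k b.f, a.k + b.k⟩⟩
instance : One ZwrZ := ⟨⟨0, 0⟩⟩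
noncomputable instance : Inv ZwrZ := ⟨fun a => ⟨- shift (-a.k) a.f, -a.k⟩⟩

@[simp] theorem mul_f (a b : ZwrZ) : (a * b).f = a.f + shift a.k b.f := rfl
@[simp] theorem mul_k (a b : ZwrZ) : (a * b).k = a.k + b.k := rfl
@[simp] theorem one_f : (1 : ZwrZ).f = 0 := rfl
@[simp] theorem one_k : (1 : ZwrZ).k = 0 := rfl
@[simp] theorem inv_f (a : ZwrZ) : a⁻¹.f = - shift (-a.k) a.f := rfl
@[simp] theorem inv_k (a : ZwrZ) : a⁻¹.k = -a.k := rfl

noncomputable instance : Group ZwrZ := Group.ofLeftAxioms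
  (by
    intro a b c
    ext i
    · simp [shift_apply, sub_sub, add_comm, add_left_comm]
    · simp [add_assoc])
  (by
    intro a
    ext i
    · simp [shift_apply]
    · simp)
  (by
    intro a
    ext i
    · simp [shift_apply]
    · simp)

/-- the generator of the lamp group -/
noncomputable def a : ZwrZ := ⟨Finsupp.single 0 1, 0⟩

/-- the generator of the group of positions -/
def t : ZwrZ := ⟨0, 1⟩

theorem t_zpow (n : ℤ) : t ^ n = ⟨0, n⟩ := by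
  have h1 : ∀ n : ℕ, t ^ n = ⟨0, (n : ℤ)⟩ := by
    intro n
    induction n with
    | zero => rfl
    | succ n ih =>
      rw [pow_succ, ih]
      ext i
      · simp [shift_apply, t]
      · simp [t]
  obtain ⟨m, rfl | rfl⟩ := n.eq_nat_or_neg
  · rw [zpow_natCast, h1]
  · rw [zpow_neg, zpow_natCast, h1]
    ext i
    · simp [shift_apply]
    · simp

theorem base_mul (f g : ℤ →₀ ℤ) : (⟨f, 0⟩ : ZwrZ) * ⟨g, 0⟩ = ⟨f + g, 0⟩ := by
  ext i
  · simp [shift_apply]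
  · simp

/-- the lamps as a homomorphism -/
noncomputable def base : Multiplicative (ℤ →₀ ℤ) →* ZwrZ where
  toFun f := ⟨f.toAdd, 0⟩
  map_one' := rfl
  map_mul' f g := by rw [base_mul]; rfl

theorem single_mem (i n : ℤ) : (⟨Finsupp.single i n, 0⟩ : ZwrZ) ∈ Subgroup.closure {a, t} := by
  have ha : a ∈ Subgroup.closure {a, t} := Subgroup.subset_closure (by simp)
  have ht : t ∈ Subgroup.closure {a, t} := Subgroup.subset_closure (by simp)
  have h1 : a ^ n = ⟨Finsupp.single 0 n, 0⟩ := by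
    have h2 : a = base (Multiplicative.ofAdd (Finsupp.single 0 1)) := rfl
    rw [h2, ← map_zpow, ← ofAdd_zsmul]
    show (⟨n • Finsupp.single 0 1, 0⟩ : ZwrZ) = _
    rw [Finsupp.smul_single, smul_eq_mul, mul_one]
  have h3 : (⟨Finsupp.single i n, 0⟩ : ZwrZ) = t ^ i * a ^ n * (t ^ i)⁻¹ := by
    rw [h1, t_zpow]
    ext j
    · simp [shift_apply, Finsupp.single_apply, sub_eq_zero, eq_comm]
    · simp
  rw [h3]
  exact Subgroup.mul_mem _ (Subgroup.mul_mem _ (Subgroup.zpow_mem _ ht _) (Subgroup.zpow_mem _ ha _))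
    (Subgroup.inv_mem _ (Subgroup.zpow_mem _ ht _))

theorem base_mem (f : ℤ →₀ ℤ) : (⟨f, 0⟩ : ZwrZ) ∈ Subgroup.closure {a, t} := by
  induction f using Finsupp.induction with
  | zero => exact Subgroup.one_mem _
  | single_add i n f _ _ ih =>
    rw [← base_mul]
    exact Subgroup.mul_mem _ (single_mem i n) ih

theorem closure_eq : Subgroup.closure {a, t} = (⊤ : Subgroup ZwrZ) := by
  rw [eq_top_iff]
  intro g _
  have h : g = ⟨g.f, 0⟩ * t ^ g.k := by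
    rw [t_zpow]
    ext i
    · simp [shift_apply]
    · simp
  rw [h]
  exact Subgroup.mul_mem _ (base_mem _)
    (Subgroup.zpow_mem _ (Subgroup.subset_closure (by simp)) _)

/-- `ℤ ≀ ℤ` is generated by two elements. -/
theorem fg : Group.FG ZwrZ :=
  Group.fg_iff.2 ⟨{a, t}, closure_eq, Set.toFinite _⟩

end ZwrZ

/-! ### The norms -/

/-- the norm `sup_i |f i| ^ θ / 2 ^ i` -/
noncomputable def nrm (θ : ℝ) (f : ℤ →₀ ℤ) : ℝ≥0 :=
  f.support.sup fun i => ‖f i‖₊ ^ θ * 2 ^ (-i)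

variable {θ : ℝ}

theorem nrm_le_iff (hθ : 0 < θ) (f : ℤ →₀ ℤ) (c : ℝ≥0) :
    nrm θ f ≤ c ↔ ∀ i, ‖f i‖₊ ^ θ * 2 ^ (-i) ≤ c := by
  unfold nrm
  rw [Finset.sup_le_iff]
  constructor
  · intro h i
    by_cases hi : i ∈ f.support
    · exact h i hi
    · rw [Finsupp.notMem_support_iff.1 hi, nnnorm_zero, NNReal.zero_rpow hθ.ne', zero_mul]
      exact zero_le
  · intro h i _
    exact h i

theorem le_nrm (hθ : 0 < θ) (f : ℤ →₀ ℤ) (i : ℤ) : ‖f i‖₊ ^ θ * 2 ^ (-i) ≤ nrm θ f :=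
  (nrm_le_iff hθ f _).1 le_rfl i

theorem nrm_zero (hθ : 0 < θ) : nrm θ 0 = 0 := by
  apply le_antisymm _ (zero_le)
  rw [nrm_le_iff hθ]
  intro i
  simp [NNReal.zero_rpow hθ.ne']

theorem nrm_neg (hθ : 0 < θ) (f : ℤ →₀ ℤ) : nrm θ (-f) = nrm θ f := by
  apply le_antisymm
  · rw [nrm_le_iff hθ]
    intro i
    rw [Finsupp.neg_apply, nnnorm_neg]
    exact le_nrm hθ f i
  · rw [nrm_le_iff hθ]
    intro i
    have := le_nrm hθ (-f) i
    rwa [Finsupp.neg_apply, nnnorm_neg] at this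

theorem nrm_add (hθ : 0 < θ) (hθ1 : θ ≤ 1) (f g : ℤ →₀ ℤ) :
    nrm θ (f + g) ≤ nrm θ f + nrm θ g := by
  rw [nrm_le_iff hθ]
  intro i
  rw [Finsupp.add_apply]
  have h1 : ‖f i + g i‖₊ ^ θ ≤ ‖f i‖₊ ^ θ + ‖g i‖₊ ^ θ := by
    refine le_trans (NNReal.rpow_le_rpow (nnnorm_add_le _ _) hθ.le) ?_
    exact NNReal.rpow_add_le_add_rpow _ _ hθ.le hθ1
  calc ‖f i + g i‖₊ ^ θ * 2 ^ (-i) ≤ (‖f i‖₊ ^ θ + ‖g i‖₊ ^ θ) * 2 ^ (-i) := by gcongr
    _ = ‖f i‖₊ ^ θ * 2 ^ (-i) + ‖g i‖₊ ^ θ * 2 ^ (-i) := by ring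
    _ ≤ _ := add_le_add (le_nrm hθ f i) (le_nrm hθ g i)

theorem nrm_shift_le (hθ : 0 < θ) (k : ℤ) (f : ℤ →₀ ℤ) :
    nrm θ (shift k f) ≤ nrm θ f * 2 ^ (-k) := by
  rw [nrm_le_iff hθ]
  intro i
  rw [shift_apply]
  have h1 := le_nrm hθ f (i - k)
  have h2 : (2 : ℝ≥0) ^ (-i) = 2 ^ (-(i - k)) * 2 ^ (-k) := by
    rw [← zpow_add₀ (by norm_num)]; congr 1; ring
  rw [h2, ← mul_assoc]
  gcongr

theorem nrm_shift (hθ : 0 < θ) (k : ℤ) (f : ℤ →₀ ℤ) :
    nrm θ (shift k f) = nrm θ f * 2 ^ (-k) := by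
  apply le_antisymm (nrm_shift_le hθ k f)
  have h1 := nrm_shift_le hθ (-k) (shift k f)
  have h2 : shift (-k) (shift k f) = f := by
    ext i
    rw [shift_apply, shift_apply]
    congr 1; ring
  rw [h2, neg_neg] at h1
  calc nrm θ f * 2 ^ (-k) ≤ nrm θ (shift k f) * 2 ^ k * 2 ^ (-k) := by gcongr
    _ = nrm θ (shift k f) := by
      rw [mul_assoc, ← zpow_add₀ (by norm_num), add_neg_cancel, zpow_zero, mul_one]

/-- the contracted norm of `ℤ ≀ ℤ` with exponent `θ` -/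
noncomputable def nd (θ : ℝ) (hθ : 0 < θ) (hθ1 : θ ≤ 1) : NormData ZwrZ where
  τ g := g.k
  τ_mul g h := rfl
  t := ZwrZ.t
  τ_t := rfl
  u g := nrm θ g.f
  u_one := by rw [ZwrZ.one_f, nrm_zero hθ]; rfl
  u_nonneg k _ := NNReal.coe_nonneg _
  u_inv k hk := by
    rw [ZwrZ.inv_f, nrm_neg hθ, nrm_shift hθ]
    have : k.k = 0 := hk
    rw [this]; simp
  u_mul k l hk hl := by
    rw [ZwrZ.mul_f]
    have : k.k = 0 := hk
    rw [this]
    have h1 := nrm_add hθ hθ1 k.f (shift 0 l.f)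
    rw [nrm_shift hθ] at h1
    simp only [neg_zero, zpow_zero, mul_one] at h1
    exact_mod_cast h1
  u_conj k hk := by
    have hk' : k.k = 0 := hk
    have h1 : (ZwrZ.t * k * ZwrZ.t⁻¹).f = shift 1 k.f := by
      ext i
      simp [ZwrZ.t, shift_apply]
    rw [h1, nrm_shift hθ]
    push_cast
    rw [zpow_neg, zpow_one]
    ring

end Pool.Agent.P8H64.Hyp
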